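import Pool.Agent.LE.StmtsQH

/-!
# Squad LQF, row LOW: low momenta
-/

set_option autoImplicit false

noncomputable section

namespace Pool.Agent.LE.QF.H17

open Pool.Agent.BED
open Pool.Agent.LE.MN Pool.Agent.LE.CL Pool.Agent.LE.IR Pool.Agent.LE.QD Pool.Agent.LE.QF

theorem card_low (d M J : ℕ) [NeZero M] (hJ : 1 ≤ J) :
    ((low d M J).card : ℝ) ≤ 3 ^ d * (J : ℝ) ^ d := by
  classical
  have h1 : (low d M J).card ≤
      (Fintype.piFinset (fun _ : Fin d => Finset.Icc (-(J : ℤ)) J)).card := by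
    refine Finset.card_le_card_of_injOn (fun p i => (p i).valMinAbs) ?_ ?_
    · intro p hp
      have hp' := Finset.mem_coe.1 hp
      unfold low at hp'
      rw [Finset.mem_filter] at hp'
      refine Finset.mem_coe.2 (Fintype.mem_piFinset.2 fun i => ?_)
      have h := hp'.2 i
      change (p i).valMinAbs ∈ Finset.Icc (-(J : ℤ)) J
      rw [Finset.mem_Icc]
      omega
    · intro p _ q _ hpq
      funext i
      exact ZMod.injective_valMinAbs (congrFun hpq i)
  rw [Fintype.card_piFinset_const, Int.card_Icc] at h1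
  have h2 : ((J : ℤ) + 1 - -(J : ℤ)).toNat = 2 * J + 1 := by omega
  rw [h2] at h1
  have h3 : (2 * J + 1) ^ d ≤ (3 * J) ^ d := Nat.pow_le_pow_left (by omega) d
  calc ((low d M J).card : ℝ) ≤ (((3 * J) ^ d : ℕ) : ℝ) := by exact_mod_cast h1.trans h3
    _ = 3 ^ d * (J : ℝ) ^ d := by push_cast; rw [mul_pow]

theorem tele (m J : ℕ) (hm : 1 ≤ m) (hJ : m ≤ J) :
    1 / (m : ℝ) ^ 2 ≤ ∑ j ∈ Finset.Ico m J, 2 / (j : ℝ) ^ 3 + 1 / (J : ℝ) ^ 2 := by
  induction J, hJ using Nat.le_induction with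
  | base => simp
  | succ J hJ ih =>
    rw [Finset.sum_Ico_succ_top hJ]
    have hJ0 : (0 : ℝ) < J := by exact_mod_cast (by omega : 0 < J)
    have h1 : 1 / (J : ℝ) ^ 2 ≤ 2 / (J : ℝ) ^ 3 + 1 / ((J + 1 : ℕ) : ℝ) ^ 2 := by
      push_cast
      rw [div_add_div _ _ (by positivity) (by positivity), div_le_div_iff₀ (by positivity)
        (by positivity)]
      have h2 : (J : ℝ) ^ 2 * (2 * (J + 1) ^ 2 + J ^ 3 * 1) - 1 * (J ^ 3 * (J + 1) ^ 2) =
          J ^ 2 * (3 * J + 2) := by ring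
      have h3 : 0 ≤ (J : ℝ) ^ 2 * (3 * J + 2) := by positivity
      linarith
    linarith

theorem coord (M : ℕ) [NeZero M] (z : ZMod M) :
    16 / (M : ℝ) ^ 2 * (z.valMinAbs : ℝ) ^ 2 ≤
      2 * (1 - Real.cos (2 * Real.pi * (z.valMinAbs : ℝ) / M)) ∧
    2 * (1 - Real.cos (2 * Real.pi * (z.valMinAbs : ℝ) / M)) ≤
      (2 * Real.pi / M) ^ 2 * (z.valMinAbs : ℝ) ^ 2 := by
  have hM : (0 : ℝ) < M := by exact_mod_cast Nat.pos_of_ne_zero (NeZero.ne M)
  have hpi := Real.pi_pos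
  have hv : |(z.valMinAbs : ℝ)| ≤ M / 2 := by
    have h1 := ZMod.natAbs_valMinAbs_le z
    have h2 : ((z.valMinAbs.natAbs : ℕ) : ℝ) ≤ M / 2 := by
      have h3 : z.valMinAbs.natAbs * 2 ≤ M := by omega
      have h4 : ((z.valMinAbs.natAbs : ℕ) : ℝ) * 2 ≤ M := by exact_mod_cast h3
      linarith
    rwa [Nat.cast_natAbs, Int.cast_abs] at h2
  set v : ℝ := (z.valMinAbs : ℝ) with hvd
  have hx : |2 * Real.pi * v / M| ≤ Real.pi := by
    rw [abs_div, abs_mul, abs_of_pos (by positivity : (0 : ℝ) < 2 * Real.pi), abs_of_pos hM,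
      div_le_iff₀ hM]
    nlinarith
  constructor
  · have h1 := Real.cos_le_one_sub_mul_cos_sq hx
    have h2 : 2 / Real.pi ^ 2 * (2 * Real.pi * v / M) ^ 2 = 8 / (M : ℝ) ^ 2 * v ^ 2 := by
      field_simp
      ring
    have h3 : 16 / (M : ℝ) ^ 2 * v ^ 2 = 2 * (8 / (M : ℝ) ^ 2 * v ^ 2) := by ring
    rw [h3, ← h2]
    linarith
  · have h1 := Real.one_sub_sq_div_two_le_cos (x := 2 * Real.pi * v / M)
    have h2 : (2 * Real.pi / M) ^ 2 * v ^ 2 = (2 * Real.pi * v / M) ^ 2 := by ring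
    rw [h2]
    linarith

/-- **LOW**. -/
theorem low_ : LowStmt := by
  classical
  intro d hd
  refine ⟨3 ^ (d + 1), one_le_pow₀ (by norm_num), fun M _ => ⟨fun p => ⟨?_, ?_⟩, fun J hJ =>
    ⟨?_, ?_⟩⟩⟩
  · rw [Finset.mul_sum]
    exact Finset.sum_le_sum fun i _ => (coord M (p i)).1
  · rw [Finset.mul_sum]
    exact Finset.sum_le_sum fun i _ => (coord M (p i)).2
  · refine (card_low d M J hJ).trans ?_
    have h1 : (3 : ℝ) ^ d ≤ 3 ^ (d + 1) := pow_le_pow_right₀ (by norm_num) (by omega)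
    exact mul_le_mul_of_nonneg_right h1 (by positivity)
  · have hM : (0 : ℝ) < M := by exact_mod_cast Nat.pos_of_ne_zero (NeZero.ne M)
    have hJ0 : (0 : ℝ) < J := by exact_mod_cast hJ
    let m : Tor d M → ℕ := fun p => Finset.univ.sup fun i => (p i).valMinAbs.natAbs
    have hm : ∀ (p : Tor d M) (j : ℕ), p ∈ low d M j ↔ m p ≤ j := by
      intro p j
      unfold low
      rw [Finset.mem_filter]
      simp only [m, Finset.mem_univ, true_and, Finset.sup_le_iff, true_implies]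
    have hm1 : ∀ p : Tor d M, p ≠ 0 → 1 ≤ m p := by
      intro p hp
      by_contra hcon
      have h0 : m p = 0 := by omega
      apply hp
      funext i
      have h1 : (p i).valMinAbs.natAbs ≤ m p :=
        Finset.le_sup (f := fun i => (p i).valMinAbs.natAbs) (Finset.mem_univ i)
      rw [h0] at h1
      have h2 : (p i).valMinAbs = 0 := by omega
      exact (ZMod.valMinAbs_eq_zero (p i)).1 h2
    have hds : ∀ p : Tor d M, p ≠ 0 → 1 / ds p ≤ (M : ℝ) ^ 2 * (1 / (m p : ℝ) ^ 2) := by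
      intro p hp
      have h1 := hm1 p hp
      have hmp : (0 : ℝ) < m p := by exact_mod_cast h1
      haveI : Nonempty (Fin d) := ⟨⟨0, by omega⟩⟩
      obtain ⟨i, _, hi⟩ := Finset.exists_mem_eq_sup (Finset.univ : Finset (Fin d))
        Finset.univ_nonempty (fun i => (p i).valMinAbs.natAbs)
      have h2 : (m p : ℝ) ^ 2 ≤ ∑ i, ((p i).valMinAbs : ℝ) ^ 2 := by
        have h3 : (m p : ℝ) = |((p i).valMinAbs : ℝ)| := by
          change ((Finset.univ.sup fun i => (p i).valMinAbs.natAbs : ℕ) : ℝ) = _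
          rw [hi, Nat.cast_natAbs, Int.cast_abs]
        rw [h3, sq_abs]
        exact Finset.single_le_sum (f := fun i => ((p i).valMinAbs : ℝ) ^ 2)
          (fun i _ => sq_nonneg _) (Finset.mem_univ i)
      have h4 : 16 / (M : ℝ) ^ 2 * ∑ i, ((p i).valMinAbs : ℝ) ^ 2 ≤ ds p := by
        rw [Finset.mul_sum]
        exact Finset.sum_le_sum fun i _ => (coord M (p i)).1
      have h5 : (m p : ℝ) ^ 2 / (M : ℝ) ^ 2 ≤ ds p := by
        refine le_trans ?_ h4
        have h6 : (m p : ℝ) ^ 2 / (M : ℝ) ^ 2 = 1 / (M : ℝ) ^ 2 * (m p : ℝ) ^ 2 := by ring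
        rw [h6]
        refine mul_le_mul ?_ h2 (by positivity) (by positivity)
        exact div_le_div_of_nonneg_right (by norm_num) (by positivity)
      have h7 : (M : ℝ) ^ 2 * (1 / (m p : ℝ) ^ 2) = 1 / ((m p : ℝ) ^ 2 / (M : ℝ) ^ 2) := by
        field_simp
      rw [h7]
      exact one_div_le_one_div_of_le (by positivity) h5
    have hcard : ∀ j : ℕ, 1 ≤ j → (((low d M J).filter (fun p => p ≠ 0 ∧ m p ≤ j)).card : ℝ) ≤
        3 ^ d * (j : ℝ) ^ d := by
      intro j hj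
      refine le_trans ?_ (card_low d M j hj)
      have : ((low d M J).filter (fun p => p ≠ 0 ∧ m p ≤ j)) ⊆ low d M j := by
        intro p hp
        rw [Finset.mem_filter] at hp
        exact (hm p j).2 hp.2.2
      exact_mod_cast Finset.card_le_card this
    have hsum : ∑ p ∈ (low d M J).filter (fun p => p ≠ 0), 1 / (m p : ℝ) ^ 2 ≤
        3 ^ (d + 1) * (J : ℝ) ^ (d - 2) := by
      have h1 : ∑ p ∈ (low d M J).filter (fun p => p ≠ 0), 1 / (m p : ℝ) ^ 2 ≤
          ∑ p ∈ (low d M J).filter (fun p => p ≠ 0),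
            (∑ j ∈ Finset.Ico 1 J, (if m p ≤ j then 2 / (j : ℝ) ^ 3 else 0) +
              1 / (J : ℝ) ^ 2) := by
        refine Finset.sum_le_sum fun p hp => ?_
        rw [Finset.mem_filter] at hp
        refine (tele (m p) J (hm1 p hp.2) ((hm p J).1 hp.1)).trans ?_
        gcongr
        rw [← Finset.sum_filter]
        apply le_of_eq
        refine Finset.sum_congr ?_ fun _ _ => rfl
        ext j
        have := hm1 p hp.2
        simp only [Finset.mem_Ico, Finset.mem_filter]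
        omega
      refine h1.trans ?_
      rw [Finset.sum_add_distrib, Finset.sum_comm, Finset.sum_const, nsmul_eq_mul]
      have h2 : ∀ j ∈ Finset.Ico 1 J, ∑ p ∈ (low d M J).filter (fun p => p ≠ 0),
          (if m p ≤ j then 2 / (j : ℝ) ^ 3 else 0) ≤ 2 * 3 ^ d * (J : ℝ) ^ (d - 3) := by
        intro j hj
        rw [Finset.mem_Ico] at hj
        have hj0 : (0 : ℝ) < j := by exact_mod_cast hj.1
        rw [← Finset.sum_filter, Finset.filter_filter, Finset.sum_const, nsmul_eq_mul]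
        have h3 := mul_le_mul_of_nonneg_right (hcard j hj.1)
          (by positivity : (0 : ℝ) ≤ 2 / (j : ℝ) ^ 3)
        refine h3.trans ?_
        have h4 : (3 : ℝ) ^ d * (j : ℝ) ^ d * (2 / (j : ℝ) ^ 3) = 2 * 3 ^ d * (j : ℝ) ^ (d - 3) := by
          have h5 : (j : ℝ) ^ d = (j : ℝ) ^ (d - 3) * (j : ℝ) ^ 3 := by
            rw [← pow_add]
            congr 1
            omega
          rw [h5]
          field_simp
        rw [h4]
        have h6 : (j : ℝ) ^ (d - 3) ≤ (J : ℝ) ^ (d - 3) :=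
          pow_le_pow_left₀ hj0.le (by exact_mod_cast hj.2.le) _
        exact mul_le_mul_of_nonneg_left h6 (by positivity)
      have h7 : ∑ j ∈ Finset.Ico 1 J, ∑ p ∈ (low d M J).filter (fun p => p ≠ 0),
          (if m p ≤ j then 2 / (j : ℝ) ^ 3 else 0) ≤ 2 * 3 ^ d * (J : ℝ) ^ (d - 2) := by
        refine (Finset.sum_le_sum h2).trans ?_
        rw [Finset.sum_const, Nat.card_Ico, nsmul_eq_mul]
        have h8 : (J : ℝ) ^ (d - 2) = (J : ℝ) * (J : ℝ) ^ (d - 3) := by
          rw [← pow_succ']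
          congr 1
          omega
        have h9 : ((J - 1 : ℕ) : ℝ) ≤ J := by exact_mod_cast Nat.sub_le J 1
        rw [h8]
        have h10 : 0 ≤ 2 * 3 ^ d * (J : ℝ) ^ (d - 3) := by positivity
        have h11 := mul_le_mul_of_nonneg_right h9 h10
        linarith
      have h12 : ((((low d M J).filter (fun p => p ≠ 0)).card : ℕ) : ℝ) * (1 / (J : ℝ) ^ 2) ≤
          3 ^ d * (J : ℝ) ^ (d - 2) := by
        have h13 : ((((low d M J).filter (fun p => p ≠ 0)).card : ℕ) : ℝ) ≤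
            3 ^ d * (J : ℝ) ^ d := by
          refine le_trans ?_ (card_low d M J hJ)
          exact_mod_cast Finset.card_le_card (Finset.filter_subset _ _)
        have h14 := mul_le_mul_of_nonneg_right h13 (by positivity : (0 : ℝ) ≤ 1 / (J : ℝ) ^ 2)
        refine h14.trans (le_of_eq ?_)
        have h15 : (J : ℝ) ^ d = (J : ℝ) ^ (d - 2) * (J : ℝ) ^ 2 := by
          rw [← pow_add]
          congr 1
          omega
        rw [h15]
        field_simp
      have h16 : (3 : ℝ) ^ (d + 1) * (J : ℝ) ^ (d - 2) =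
          2 * 3 ^ d * (J : ℝ) ^ (d - 2) + 3 ^ d * (J : ℝ) ^ (d - 2) := by ring
      rw [h16]
      exact add_le_add h7 h12
    calc ∑ p ∈ (low d M J).filter (fun p => p ≠ 0), 1 / ds p
        ≤ ∑ p ∈ (low d M J).filter (fun p => p ≠ 0), (M : ℝ) ^ 2 * (1 / (m p : ℝ) ^ 2) :=
          Finset.sum_le_sum fun p hp => hds p (Finset.mem_filter.1 hp).2
      _ = (M : ℝ) ^ 2 * ∑ p ∈ (low d M J).filter (fun p => p ≠ 0), 1 / (m p : ℝ) ^ 2 := by
          rw [Finset.mul_sum]
      _ ≤ (M : ℝ) ^ 2 * (3 ^ (d + 1) * (J : ℝ) ^ (d - 2)) :=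
          mul_le_mul_of_nonneg_left hsum (by positivity)
      _ = 3 ^ (d + 1) * (M : ℝ) ^ 2 * (J : ℝ) ^ (d - 2) := by ring

end Pool.Agent.LE.QF.H17
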